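import Pool.Agent.TH464.PO.PolyBase

set_option autoImplicit false

/-!
# Almost primes `m ^ 2 + 1`, `m ^ 2 + 3`: patterns with prescribed surroundings

Let `m` be good if `m ^ 2 + 1` and `m ^ 2 + 3` both have at most `2 r` prime factors, all larger
than `X ^ (1 / r)`. Let `V` be the sieve density of this condition, and for a finite set `B` let
`V_B` be the sieve density of the condition that all `m + t`, `t ∈ B`, satisfy it. Given `θ > 0`,
a size `β` of patterns, a number `w` of windows, a size `x` and an accuracy `ε`, for all `r ≥ r0`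
and all large `X`, in ALL intervals `(Z, Z + Y]` inside `[0, 2 X]` of length `Y ≥ X ^ θ`, for ALL
sets `B ⊆ [0, x / V]` of at most `β` elements, ALL disjoint windows `(u_i, v_i] ⊆ [0, x / V]`
without elements of `B` and ALL finite sets `E_i`: the number of the `m` in `(Z, Z + Y]` such that
all `m + h`, `h ∈ B`, are good and the number of the good integers in `(m + u_i, m + v_i]` lies in
`E_i` for every `i` is `Y V_B` times the product of the Poisson probabilities of the `E_i` for the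
means `(v_i - u_i) V`, up to `ε Y V_B`.
-/

namespace Pool.Agent.Results.MP_a30aa5_nt.Patterns

open Finset Filter

/-- `N` has at most `B` prime factors (with multiplicity), all of them larger than `z`. -/
def AlmostPrime (B : ℕ) (z : ℝ) (N : ℕ) : Prop :=
  N.primeFactorsList.length ≤ B ∧ ∀ p : ℕ, p.Prime → p ∣ N → z < (p : ℝ)

/-- `m` is good: `m ^ 2 + 1` and `m ^ 2 + 3` both have at most `2 r` prime factors, all of them larger
than `X ^ (1 / r)`. -/
def Good (r X m : ℕ) : Prop :=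
  AlmostPrime (2 * r) ((X : ℝ) ^ (1 / (r : ℝ))) (m ^ 2 + 1) ∧
    AlmostPrime (2 * r) ((X : ℝ) ^ (1 / (r : ℝ))) (m ^ 2 + 3)

open Classical in
/-- The sieve density: the product of `1 - ρ(p) / p` over the primes `p ≤ X ^ (1 / r)`, where `ρ(p)` is
the number of the `m` mod `p` with `p ∣ m ^ 2 + 1` or `p ∣ m ^ 2 + 3`. -/
noncomputable def V (r X : ℕ) : ℝ :=
  ∏ p ∈ (Finset.range (⌊(X : ℝ) ^ (1 / (r : ℝ))⌋₊ + 1)).filter Nat.Prime,
    (1 - (((Finset.range p).filter (fun m : ℕ => p ∣ m ^ 2 + 1 ∨ p ∣ m ^ 2 + 3)).card : ℝ) / p)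

open Classical in
/-- The sieve density of the pattern `B`: the product of `1 - ρ(p) / p` over the primes `p ≤ X ^ (1 / r)`,
where `ρ(p)` is the number of the `m` mod `p` for which the previous condition holds at `m + t` for some
`t ∈ B`. -/
noncomputable def VB (r X : ℕ) (B : Finset ℕ) : ℝ :=
  ∏ p ∈ (Finset.range (⌊(X : ℝ) ^ (1 / (r : ℝ))⌋₊ + 1)).filter Nat.Prime,
    (1 - (((Finset.range p).filter (fun m : ℕ => ∃ t ∈ B, p ∣ (m + t) ^ 2 + 1 ∨
      p ∣ (m + t) ^ 2 + 3)).card : ℝ) / p)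

open Classical in
/-- The number of the good `m` in `(u, v]`. -/
noncomputable def count (r X : ℕ) (u v : ℕ) : ℕ :=
  ((Finset.Ioc u v).filter (fun m => Good r X m)).card

/-- The probability of `E` for the Poisson distribution of mean `x`. -/
noncomputable def Poi (x : ℝ) (E : Finset ℕ) : ℝ :=
  ∑ j ∈ E, Real.exp (-x) * x ^ j / j.factorial

open Pool.Agent.TH464.PO Pool.Agent.TH464.PW Pool.Agent.W123.RU Pool.Agent.W123.RU.Poly
open Pool.Agent.H373R2.T7 Pool.Agent.W123.RP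

lemma quad_nat (c m : ℕ) : ((quad 1 0 c).eval (m : ℤ)) = ((m ^ 2 + c : ℕ) : ℤ) := by
  rw [quad_eval]
  push_cast
  ring

lemma good_iff (r : ℕ) (hr : 1 ≤ r) : ∀ᶠ X : ℕ in atTop, ∀ m : ℕ, m ≤ 3 * X →
    (Sf (Q f13) ⌊(X : ℝ) ^ (1 / (r : ℝ))⌋₊ m ↔ Good r X m) := by
  filter_upwards [sf_two (quad 1 0 1) (quad 1 0 3) 2 2 (quad_deg 1 0 1 one_ne_zero).le
    (quad_deg 1 0 3 one_ne_zero).le r hr] with X hX m hm
  have h := hX m hm
  have e1 := quad_nat 1 m
  have e3 := quad_nat 3 m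
  push_cast at e1 e3
  rw [e1, e3] at h
  exact_mod_cast h

lemma Q_iff (p m : ℕ) : Q f13 p m ↔ (p ∣ m ^ 2 + 1 ∨ p ∣ m ^ 2 + 3) := by
  have e1 := quad_nat 1 m
  have e3 := quad_nat 3 m
  push_cast at e1 e3
  unfold f13
  rw [Q_two, e1, e3]
  norm_cast

open Classical in
/-- **Patterns with prescribed surroundings**, in all intervals. -/
theorem result (θ : ℝ) (hθ : 0 < θ) (β w : ℕ) (x ε : ℝ) (hε : 0 < ε) :
    ∃ r0 : ℕ, ∀ r : ℕ, r0 ≤ r → ∀ᶠ X : ℕ in atTop, ∀ Z Y : ℕ, (X : ℝ) ^ θ ≤ Y → Z + Y ≤ 2 * X →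
      ∀ B : Finset ℕ, B.card ≤ β → (∀ h ∈ B, h * V r X ≤ x) →
      ∀ u v : Fin w → ℕ, (∀ i, u i ≤ v i) → (∀ i, v i * V r X ≤ x) →
      (∀ i j, i ≠ j → v i ≤ u j ∨ v j ≤ u i) → (∀ i, ∀ h ∈ B, h ≤ u i ∨ v i < h) →
      ∀ E : Fin w → Finset ℕ,
        |(((Finset.Ioc Z (Z + Y)).filter (fun m => (∀ h ∈ B, Good r X (m + h)) ∧
            ∀ i, count r X (m + u i) (m + v i) ∈ E i)).card : ℝ) -
          Y * VB r X B * ∏ i, Poi (((v i : ℝ) - u i) * V r X) (E i)| ≤ ε * (Y * VB r X B) := by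
  obtain ⟨r0, h0⟩ := poly_baseg f13 f13_sys f13_noTr θ hθ β w x ε hε
  refine ⟨max r0 1, ?_⟩
  intro r hr
  filter_upwards [h0 r ((le_max_left _ _).trans hr), good_iff r ((le_max_right _ _).trans hr)]
    with X hX hap
  exact hX (Good r X) (V r X) (VB r X) hap (V_gen' _ _ Q_iff _) (fun B => V_gen' _ _
    (fun p m => exists_congr fun t => and_congr_right fun _ => Q_iff p (m + t)) _)

end Pool.Agent.Results.MP_a30aa5_nt.Patterns
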